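import Mathlib

/-!
# A `P_6`-free poset that is not `d`-decomposable (MP_28dfab)

The eight-element poset of height two with the strict comparabilities
`0<4, 3<4, 2<4, 2<6, 1<6, 1<5, 1<7` does not contain `P_6` as an induced subposet and is not
`d`-decomposable: its antichains of maximum size `5` are `{0,3,5,7,2}` and `{0,3,5,7,6}`, and
their complements `{1,4,6}` and `{1,2,4}` are not antichains.
-/

namespace Pool.Agent.Results.MP_28dfab_co.NotDecomposable

section Defs

variable (P : Type) [PartialOrder P] [Fintype P] [DecidableEq P]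

/-- A `k`-antichain: a union of `k` pairwise disjoint antichains. -/
def IsKAntichain (k : ℕ) (S : Finset P) : Prop :=
  ∃ A : Fin k → Finset P, (∀ i, IsAntichain (· ≤ ·) (A i : Set P)) ∧
    (∀ i j, i ≠ j → Disjoint (A i) (A j)) ∧ S = Finset.univ.biUnion A

/-- `d_k(P)`: the largest size of a `k`-antichain. -/
noncomputable def dNum (k : ℕ) : ℕ := sSup {s | ∃ S, IsKAntichain P k S ∧ S.card = s}

/-- The height of `P`: the largest size of a chain. -/
noncomputable def height : ℕ :=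
  sSup {s | ∃ C : Finset P, IsChain (· ≤ ·) (C : Set P) ∧ C.card = s}

/-- `P` is `d`-decomposable: it has a partition into antichains `A_1, …, A_h` (`h` the height)
with `|A_1 ∪ … ∪ A_k| = d_k(P)` for `k = 1, …, h`. -/
def DDecomposable : Prop :=
  ∃ A : Fin (height P) → Finset P, (∀ i, IsAntichain (· ≤ ·) (A i : Set P)) ∧
    (∀ i j, i ≠ j → Disjoint (A i) (A j)) ∧ Finset.univ.biUnion A = Finset.univ ∧
    ∀ k, 1 ≤ k → k ≤ height P →
      ((Finset.univ.filter fun i : Fin (height P) => i.1 < k).biUnion A).card = dNum P k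

end Defs

/-- The strict comparabilities of `P_6`; `x_1, x_2, x_3, y_1, y_2, y_3` are `0, …, 5`:
`x_i < y_2` and `x_2 < y_i`. -/
def lt6 : List (Fin 6 × Fin 6) := [(0, 4), (1, 4), (2, 4), (1, 3), (1, 5)]

/-- The poset `P_6`. -/
def P6 : Type := Fin 6

instance : PartialOrder P6 where
  le := fun a b => ((a : Fin 6) = b ∨ ((a : Fin 6), (b : Fin 6)) ∈ lt6)
  le_refl := fun a => Or.inl rfl
  le_trans := by
    change ∀ a b c : Fin 6, (a = b ∨ (a, b) ∈ lt6) → (b = c ∨ (b, c) ∈ lt6) →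
      (a = c ∨ (a, c) ∈ lt6)
    decide +kernel
  le_antisymm := by
    change ∀ a b : Fin 6, (a = b ∨ (a, b) ∈ lt6) → (b = a ∨ (b, a) ∈ lt6) → a = b
    decide +kernel

/-- The strict comparabilities of the counterexample. -/
def lt8 : List (Fin 8 × Fin 8) := [(0, 4), (3, 4), (2, 4), (2, 6), (1, 6), (1, 5), (1, 7)]

/-- The counterexample. -/
def Q : Type := Fin 8

instance : DecidableEq Q := inferInstanceAs (DecidableEq (Fin 8))
instance : Fintype Q := inferInstanceAs (Fintype (Fin 8))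

instance : PartialOrder Q where
  le := fun a b => ((a : Fin 8) = b ∨ ((a : Fin 8), (b : Fin 8)) ∈ lt8)
  le_refl := fun a => Or.inl rfl
  le_trans := by
    change ∀ a b c : Fin 8, (a = b ∨ (a, b) ∈ lt8) → (b = c ∨ (b, c) ∈ lt8) →
      (a = c ∨ (a, c) ∈ lt8)
    decide +kernel
  le_antisymm := by
    change ∀ a b : Fin 8, (a = b ∨ (a, b) ∈ lt8) → (b = a ∨ (b, a) ∈ lt8) → a = b
    decide +kernel

theorem Q_le (a b : Q) : a ≤ b ↔ ((a : Fin 8) = b ∨ ((a : Fin 8), (b : Fin 8)) ∈ lt8) := Iff.rfl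

theorem Q_lt (a b : Q) : a < b ↔ ((a : Fin 8), (b : Fin 8)) ∈ lt8 := by
  have h : ∀ a b : Fin 8, ((a = b ∨ (a, b) ∈ lt8) ∧ ¬ (b = a ∨ (b, a) ∈ lt8)) ↔ (a, b) ∈ lt8 := by
    decide +kernel
  exact h a b

set_option synthInstance.maxSize 2000 in
theorem up : ∀ a b c d : Fin 8, ((a, b) ∈ lt8 ∧ (a, c) ∈ lt8 ∧ (a, d) ∈ lt8 ∧ b ≠ c ∧ b ≠ d ∧
    c ≠ d) → a = 1 := by decide +kernel

set_option synthInstance.maxSize 2000 in
theorem dn : ∀ a b c d : Fin 8, ((b, a) ∈ lt8 ∧ (c, a) ∈ lt8 ∧ (d, a) ∈ lt8 ∧ b ≠ c ∧ b ≠ d ∧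
    c ≠ d) → a = 4 := by decide +kernel

theorem not14 : ((1 : Fin 8), (4 : Fin 8)) ∉ lt8 := by decide

/-- `Q` excludes `P_6`. -/
theorem excludes : ¬ Nonempty (P6 ↪o Q) := by
  rintro ⟨f⟩
  have flt : ∀ a b : P6, a < b → f a < f b := fun a b h => f.lt_iff_lt.2 h
  have l6 : ∀ a b : Fin 6, (a, b) ∈ lt6 → @LT.lt P6 _ a b := by
    intro a b hab
    have h : ∀ a b : Fin 6, (a, b) ∈ lt6 → ((a = b ∨ (a, b) ∈ lt6) ∧ ¬ (b = a ∨ (b, a) ∈ lt6)) := by
      decide +kernel
    exact h a b hab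
  have e1 := flt _ _ (l6 1 3 (by decide))
  have e2 := flt _ _ (l6 1 4 (by decide))
  have e3 := flt _ _ (l6 1 5 (by decide))
  have e4 := flt _ _ (l6 0 4 (by decide))
  have e5 := flt _ _ (l6 2 4 (by decide))
  have inj : ∀ a b : Fin 6, a ≠ b → f (a : P6) ≠ f (b : P6) := fun a b hab h =>
    hab (f.injective h)
  rw [Q_lt] at e1 e2 e3 e4 e5
  have h1 := up _ _ _ _ ⟨e1, e2, e3, inj 3 4 (by decide), inj 3 5 (by decide),
    inj 4 5 (by decide)⟩
  have h2 := dn _ _ _ _ ⟨e4, e2, e5, inj 0 1 (by decide), inj 0 2 (by decide),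
    inj 1 2 (by decide)⟩
  rw [h1, h2] at e2
  exact not14 e2

/-- Antichains of `Q`, decidably. -/
def Anti (S : Finset (Fin 8)) : Prop := ∀ a ∈ S, ∀ b ∈ S, (a, b) ∉ lt8

instance (S : Finset (Fin 8)) : Decidable (Anti S) := by unfold Anti; infer_instance

theorem anti_iff (S : Finset Q) : IsAntichain (· ≤ ·) (S : Set Q) ↔ Anti S := by
  constructor
  · intro h a ha b hb hab
    have hne : (a : Q) ≠ (b : Q) := by
      have : ∀ a b : Fin 8, (a, b) ∈ lt8 → a ≠ b := by decide +kernel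
      exact this a b hab
    exact h (Finset.mem_coe.2 ha) (Finset.mem_coe.2 hb) hne (Or.inr hab)
  · intro h a ha b hb hne hle
    rcases hle with hle | hle
    · exact hne hle
    · exact h a (Finset.mem_coe.1 ha) b (Finset.mem_coe.1 hb) hle

theorem height_Q : height Q = 2 := by
  unfold height
  apply IsGreatest.csSup_eq
  constructor
  · refine ⟨({(0 : Fin 8), (4 : Fin 8)} : Finset (Fin 8)), ?_, by decide⟩
    intro a ha b hb _
    have h : ∀ a ∈ ({(0 : Fin 8), (4 : Fin 8)} : Finset (Fin 8)),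
        ∀ b ∈ ({(0 : Fin 8), (4 : Fin 8)} : Finset (Fin 8)),
        (a = b ∨ (a, b) ∈ lt8) ∨ (b = a ∨ (b, a) ∈ lt8) := by decide +kernel
    exact h a (Finset.mem_coe.1 ha) b (Finset.mem_coe.1 hb)
  · rintro s ⟨C, hC, rfl⟩
    have h : ∀ C : Finset (Fin 8), (∀ a ∈ C, ∀ b ∈ C,
        (a = b ∨ (a, b) ∈ lt8) ∨ (b = a ∨ (b, a) ∈ lt8)) → C.card ≤ 2 := by decide +kernel
    apply h C
    intro a ha b hb
    by_cases hab : a = b
    · exact Or.inl (Or.inl hab)
    · exact hC (Finset.mem_coe.2 ha) (Finset.mem_coe.2 hb) hab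

theorem anti5 : Anti ({0, 2, 3, 5, 7} : Finset (Fin 8)) := by decide +kernel

theorem biUnion_const {α : Type} [DecidableEq α] (S : Finset α) :
    S = Finset.univ.biUnion (fun _ : Fin 1 => S) := by
  rw [Finset.univ_unique, Finset.singleton_biUnion]

theorem dNum_one : dNum Q 1 = 5 := by
  unfold dNum
  apply IsGreatest.csSup_eq
  constructor
  · refine ⟨({0, 2, 3, 5, 7} : Finset (Fin 8)), ⟨fun _ => ({0, 2, 3, 5, 7} : Finset (Fin 8)),
      fun _ => ?_, fun i j hij => absurd (Subsingleton.elim i j) hij, ?_⟩, by decide⟩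
    · exact (anti_iff _).2 anti5
    · exact biUnion_const _
  · rintro s ⟨S, ⟨A, hA, -, hS⟩, rfl⟩
    have h : ∀ C : Finset (Fin 8), Anti C → C.card ≤ 5 := by decide +kernel
    have hS' : S = A 0 := by
      rw [hS]; ext x; simp
    rw [hS']
    exact h _ ((anti_iff _).1 (hA 0))

theorem not_dDecomposable : ¬ DDecomposable Q := by
  rintro ⟨A, hA, -, hun, hk⟩
  have h2 : height Q = 2 := height_Q
  have i0 : 0 < height Q := by omega
  have i1 : 1 < height Q := by omega
  have hcard := hk 1 le_rfl (by omega)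
  rw [dNum_one] at hcard
  have hfil : (Finset.univ.filter fun i : Fin (height Q) => i.1 < 1) = {⟨0, i0⟩} := by
    ext i
    simp only [Finset.mem_filter, Finset.mem_univ, true_and, Finset.mem_singleton, Fin.ext_iff]
    omega
  rw [hfil, Finset.singleton_biUnion] at hcard
  have a0 := (anti_iff _).1 (hA ⟨0, i0⟩)
  have a1 := (anti_iff _).1 (hA ⟨1, i1⟩)
  have hcov : ∀ x : Fin 8, x ∉ (A ⟨0, i0⟩ : Finset (Fin 8)) → x ∈ (A ⟨1, i1⟩ : Finset (Fin 8)) := by
    intro x hx
    have hx' : (x : Q) ∈ Finset.univ.biUnion A := by rw [hun]; exact Finset.mem_univ _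
    obtain ⟨i, -, hi⟩ := Finset.mem_biUnion.1 hx'
    have hi2 : i.1 = 0 ∨ i.1 = 1 := by have := i.2; omega
    rcases hi2 with h | h
    · exfalso; apply hx
      have : i = ⟨0, i0⟩ := Fin.ext h
      rw [this] at hi; exact hi
    · have : i = ⟨1, i1⟩ := Fin.ext h
      rw [this] at hi; exact hi
  have key : ∀ C : Finset (Fin 8), Anti C → C.card = 5 →
      ∃ x, x ∉ C ∧ ∃ y, y ∉ C ∧ (x, y) ∈ lt8 := by decide +kernel
  obtain ⟨x, hx, y, hy, hxy⟩ := key _ a0 hcard
  exact a1 x (hcov x hx) y (hcov y hy) hxy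

/-- **Negative answer to Q1 of MP_28dfab**: there is a finite poset (with eight elements) that
contains no induced copy of `P_6` and is not `d`-decomposable. -/
theorem result : ∃ (P : Type) (_ : PartialOrder P) (_ : Fintype P) (_ : DecidableEq P),
    Fintype.card P = 8 ∧ ¬ Nonempty (P6 ↪o P) ∧ ¬ DDecomposable P :=
  ⟨Q, inferInstance, inferInstance, inferInstance, by decide, excludes, not_dDecomposable⟩

end Pool.Agent.Results.MP_28dfab_co.NotDecomposable
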